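import Pool.Agent.NA.Stmts

set_option autoImplicit false

open Finset Filter Topology

namespace Pool.Agent.NA.H51

open Pool.Agent.NA

theorem sgp : SgpStmt := by
  intro X _ _ E b f ζ δ η w hζ hδ hη hη1 hζη hN hfw hw e he a
  have hnn : 0 ≤ ‖e + a • w‖ := norm_nonneg _
  have hen : 0 ≤ ‖e‖ := norm_nonneg _
  by_cases hcase : ‖e‖ ≤ ‖e + a • w‖
  · nlinarith
  · push Not at hcase
    -- `|a| δ ≤ 2 ‖e‖`
    have h1 : ‖a • w‖ ≤ 2 * ‖e‖ := by
      have : a • w = (e + a • w) - e := by abel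
      rw [this]
      calc ‖(e + a • w) - e‖ ≤ ‖e + a • w‖ + ‖e‖ := norm_sub_le _ _
        _ ≤ 2 * ‖e‖ := by linarith
    have h2 : |a| * δ ≤ 2 * ‖e‖ := by
      have h3 : ‖a • w‖ = |a| * ‖w‖ := by rw [norm_smul, Real.norm_eq_abs]
      have h4 : |a| * δ ≤ |a| * ‖w‖ := mul_le_mul_of_nonneg_left hw (abs_nonneg a)
      linarith
    have h3 : |a| ≤ 2 / δ * ‖e‖ := by
      have : |a| ≤ (2 * ‖e‖) / δ := (le_div_iff₀ hδ).2 h2
      calc |a| ≤ (2 * ‖e‖) / δ := this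
        _ = 2 / δ * ‖e‖ := by ring
    obtain ⟨j, hj⟩ := hN.2 e he
    have h4 : f j (e + a • w) ≤ ‖e + a • w‖ := by
      calc f j (e + a • w) ≤ |f j (e + a • w)| := le_abs_self _
        _ = ‖f j (e + a • w)‖ := (Real.norm_eq_abs _).symm
        _ ≤ ‖f j‖ * ‖e + a • w‖ := (f j).le_opNorm _
        _ ≤ 1 * ‖e + a • w‖ := mul_le_mul_of_nonneg_right (hN.1 j) hnn
        _ = ‖e + a • w‖ := one_mul _
    have h5 : f j (e + a • w) = f j e + a * f j w := by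
      rw [map_add, map_smul, smul_eq_mul]
    have h6 : -(|a| * ζ) ≤ a * f j w := by
      have : |a * f j w| ≤ |a| * ζ := by
        rw [abs_mul]
        exact mul_le_mul_of_nonneg_left (hfw j) (abs_nonneg a)
      linarith [neg_abs_le (a * f j w)]
    have h7 : |a| * ζ ≤ ζ * (2 / δ) * ‖e‖ := by
      calc |a| * ζ ≤ (2 / δ * ‖e‖) * ζ := mul_le_mul_of_nonneg_right h3 hζ.le
        _ = ζ * (2 / δ) * ‖e‖ := by ring
    have h8 : (1 - η / 2) * ‖e‖ ≤ ‖e + a • w‖ := by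
      have h9 : (1 - ζ) * ‖e‖ - ζ * (2 / δ) * ‖e‖ ≤ ‖e + a • w‖ := by linarith
      have h10 : ζ * (1 + 2 / δ) * ‖e‖ ≤ η / 2 * ‖e‖ := mul_le_mul_of_nonneg_right hζη hen
      nlinarith
    have h11 : 1 ≤ (1 + η) * (1 - η / 2) := by nlinarith
    calc ‖e‖ = 1 * ‖e‖ := (one_mul _).symm
      _ ≤ ((1 + η) * (1 - η / 2)) * ‖e‖ := mul_le_mul_of_nonneg_right h11 hen
      _ = (1 + η) * ((1 - η / 2) * ‖e‖) := by ring
      _ ≤ (1 + η) * ‖e + a • w‖ := mul_le_mul_of_nonneg_left h8 (by linarith)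

end Pool.Agent.NA.H51
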